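import Pool.Agent.Helper76.TX.StNv2

/-!
# Project TU, module NVB2: nonvanishing of the path sums, linear form (first half after Helper40)
-/

set_option autoImplicit false

namespace Pool.Agent.Helper6.TX

open Pool.Agent.Helper76.TX Pool.Agent.Helper14.CV

/-- Elements `1 + 4 w` of `ZMod (2^r)` are units. -/
private theorem isUnit_four {r : ℕ} (w : ZMod (2 ^ r)) : IsUnit (1 + 4 * w) := by
  have h2 : IsNilpotent (2 : ZMod (2 ^ r)) := by
    refine ⟨r, ?_⟩
    have : ((2 ^ r : ℕ) : ZMod (2 ^ r)) = 0 := ZMod.natCast_self _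
    push_cast at this
    exact this
  have h4 : IsNilpotent (4 * w) := by
    have : (4 : ZMod (2 ^ r)) * w = 2 * (2 * w) := by ring
    rw [this]
    exact (Commute.all _ _).isNilpotent_mul_right h2
  exact h4.isUnit_one_add

/-- Uniqueness of the inverse. -/
private theorem inv_uniq {r : ℕ} {a b : ZMod (2 ^ r)} (ha : IsUnit a) (h : a * b = 1) : a⁻¹ = b := by
  calc a⁻¹ = a⁻¹ * (a * b) := by rw [h, mul_one]
    _ = (a⁻¹ * a) * b := by ring
    _ = b := by rw [ZMod.inv_mul_of_unit _ ha, one_mul]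

/-- The one variable map inverse to itself with `-z`. -/
private theorem frac_inv {r : ℕ} (z : ℤ) (y : ZMod (2 ^ r)) :
    y * (1 + 4 * (z : ZMod (2 ^ r)) * y)⁻¹ *
      (1 + 4 * ((-z : ℤ) : ZMod (2 ^ r)) * (y * (1 + 4 * (z : ZMod (2 ^ r)) * y)⁻¹))⁻¹ = y := by
  set u : ZMod (2 ^ r) := 1 + 4 * (z : ZMod (2 ^ r)) * y with hu
  have hunit : IsUnit u := by
    rw [hu, mul_assoc]; exact isUnit_four _
  have h1 : u * u⁻¹ = 1 := ZMod.mul_inv_of_unit _ hunit
  have hunit' : IsUnit (1 + 4 * ((-z : ℤ) : ZMod (2 ^ r)) * (y * u⁻¹)) := by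
    rw [mul_assoc]; exact isUnit_four _
  have h2 : (1 + 4 * ((-z : ℤ) : ZMod (2 ^ r)) * (y * u⁻¹)) * u = 1 := by
    push_cast
    have : (1 + 4 * (-(z : ZMod (2 ^ r))) * (y * u⁻¹)) * u =
        u - 4 * z * y * (u * u⁻¹) := by ring
    rw [this, h1, hu]; ring
  rw [inv_uniq hunit' h2]
  calc y * u⁻¹ * u = y * (u * u⁻¹) := by ring
    _ = y := by rw [h1, mul_one]

/-- The map of the plane. -/
private def mA {r : ℕ} (z : ℤ) (p : ZMod (2 ^ r) × ZMod (2 ^ r)) : ZMod (2 ^ r) × ZMod (2 ^ r) :=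
  (p.1 + z, p.2 * (1 + 4 * z * p.2)⁻¹)

private def mB {r : ℕ} (z : ℤ) (p : ZMod (2 ^ r) × ZMod (2 ^ r)) : ZMod (2 ^ r) × ZMod (2 ^ r) :=
  (p.1 * (1 + 4 * z * p.1)⁻¹, p.2 + z)

private theorem mA_inv {r : ℕ} (z : ℤ) (p : ZMod (2 ^ r) × ZMod (2 ^ r)) :
    mA (-z) (mA z p) = p := by
  unfold mA
  ext
  · simp
  · simp only
    exact frac_inv z p.2

private theorem mB_inv {r : ℕ} (z : ℤ) (p : ZMod (2 ^ r) × ZMod (2 ^ r)) :
    mB (-z) (mB z p) = p := by
  unfold mB
  ext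
  · simp only
    exact frac_inv z p.1
  · simp

private theorem mA_inv' {r : ℕ} (z : ℤ) (p : ZMod (2 ^ r) × ZMod (2 ^ r)) :
    mA z (mA (-z) p) = p := by
  have := mA_inv (-z) p
  rwa [neg_neg] at this

private theorem mB_inv' {r : ℕ} (z : ℤ) (p : ZMod (2 ^ r) × ZMod (2 ^ r)) :
    mB z (mB (-z) p) = p := by
  have := mB_inv (-z) p
  rwa [neg_neg] at this

/-- The indicator function of a point. -/
private noncomputable def dl {K : Type} [Field K] {r : ℕ} (p : ZMod (2 ^ r) × ZMod (2 ^ r)) :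
    ZMod (2 ^ r) → ZMod (2 ^ r) → K :=
  Function.curry (Pi.single p 1)

private theorem dl_apply {K : Type} [Field K] {r : ℕ} (p : ZMod (2 ^ r) × ZMod (2 ^ r))
    (x y : ZMod (2 ^ r)) : (dl p : _ → _ → K) x y = if (x, y) = p then 1 else 0 := by
  unfold dl
  rw [Function.curry_apply, Pi.single_apply]

private theorem tA_dl {K : Type} [Field K] {r : ℕ} (p : ZMod (2 ^ r) × ZMod (2 ^ r)) :
    tA 1 (dl p : _ → _ → K) = dl (mA (-1) p) := by
  funext x y
  unfold tA
  rw [dl_apply, dl_apply]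
  have : ((x + ((1 : ℤ) : ZMod (2 ^ r)), y * (1 + 4 * ((1 : ℤ) : ZMod (2 ^ r)) * y)⁻¹) = p) ↔
      ((x, y) = mA (-1) p) := by
    constructor
    · intro h
      rw [← h]
      exact (mA_inv 1 (x, y)).symm
    · intro h
      have h' := congrArg (mA 1) h
      rw [mA_inv' 1 p] at h'
      exact h'
  by_cases h : (x, y) = mA (-1) p
  · rw [if_pos h, if_pos (this.mpr h)]
  · rw [if_neg h, if_neg (fun h' => h (this.mp h'))]

private theorem tB_dl {K : Type} [Field K] {r : ℕ} (p : ZMod (2 ^ r) × ZMod (2 ^ r)) :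
    tB (-1) (dl p : _ → _ → K) = dl (mB 1 p) := by
  funext x y
  unfold tB
  rw [dl_apply, dl_apply]
  have : ((x * (1 + 4 * ((-1 : ℤ) : ZMod (2 ^ r)) * x)⁻¹, y + ((-1 : ℤ) : ZMod (2 ^ r))) = p) ↔
      ((x, y) = mB 1 p) := by
    constructor
    · intro h
      rw [← h]
      exact (mB_inv' 1 (x, y)).symm
    · intro h
      have h' := congrArg (mB (-1)) h
      rw [mB_inv 1 p] at h'
      exact h'
  by_cases h : (x, y) = mB 1 p
  · rw [if_pos h, if_pos (this.mpr h)]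
  · rw [if_neg h, if_neg (fun h' => h (this.mp h'))]

/-- The relation as a linear map. -/
private noncomputable def rho (K : Type) [Field K] (r : ℕ) :
    ((ZMod (2 ^ r) → ZMod (2 ^ r) → K) × (ZMod (2 ^ r) → ZMod (2 ^ r) → K)) →ₗ[K]
      (ZMod (2 ^ r) → ZMod (2 ^ r) → K) where
  toFun F := (tA 1 F.1 - F.1) - (tA 1 (tB (-1) F.2) - F.2)
  map_add' F G := by
    funext x y
    simp only [tA, tB, Pi.add_apply, Pi.sub_apply, Prod.fst_add, Prod.snd_add]
    ring
  map_smul' c F := by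
    funext x y
    simp only [tA, tB, Pi.smul_apply, Pi.sub_apply, Prod.smul_fst, Prod.smul_snd, smul_eq_mul,
      RingHom.id_apply]
    ring

/-- A functional which vanishes on the pairs with the relation comes from a function `lam`. -/
private theorem exists_lam {K : Type} [Field K] {r : ℕ}
    (Psi : ((ZMod (2 ^ r) → ZMod (2 ^ r) → K) × (ZMod (2 ^ r) → ZMod (2 ^ r) → K)) →ₗ[K] K)
    (h : ∀ F1 F3 : ZMod (2 ^ r) → ZMod (2 ^ r) → K, Rel F1 F3 → Psi (F1, F3) = 0) :
    ∃ lam : ZMod (2 ^ r) → ZMod (2 ^ r) → K,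
      (∀ p : ZMod (2 ^ r) × ZMod (2 ^ r), Psi (dl p, 0) =
        lam (mA (-1) p).1 (mA (-1) p).2 - lam p.1 p.2) ∧
      (∀ p : ZMod (2 ^ r) × ZMod (2 ^ r), Psi (0, dl p) =
        lam p.1 p.2 - lam (mA (-1) (mB 1 p)).1 (mA (-1) (mB 1 p)).2) := by
  have hmem : Psi ∈ (LinearMap.ker (rho K r)).dualAnnihilator := by
    rw [Submodule.mem_dualAnnihilator]
    intro F hF
    obtain ⟨F1, F3⟩ := F
    refine h F1 F3 fun x y => ?_
    rw [LinearMap.mem_ker] at hF
    have := congrFun (congrFun hF x) y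
    simp only [rho, LinearMap.coe_mk, AddHom.coe_mk, Pi.sub_apply, Pi.zero_apply] at this
    exact sub_eq_zero.mp this
  rw [← LinearMap.range_dualMap_eq_dualAnnihilator_ker] at hmem
  obtain ⟨L, hL⟩ := hmem
  refine ⟨fun x y => L (dl (x, y)), fun p => ?_, fun p => ?_⟩
  · rw [← hL]
    change L (rho K r (dl p, 0)) = _
    have : rho K r (dl p, 0) = dl (mA (-1) p) - dl p := by
      have e : (tA 1 (tB (-1) (0 : ZMod (2 ^ r) → ZMod (2 ^ r) → K))) = 0 := rfl
      change (tA 1 (dl p) - dl p) - (tA 1 (tB (-1) (0 : ZMod (2 ^ r) → ZMod (2 ^ r) → K)) -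
        (0 : ZMod (2 ^ r) → ZMod (2 ^ r) → K)) = _
      rw [e, tA_dl, sub_zero, sub_zero]
    rw [this, map_sub]
  · rw [← hL]
    change L (rho K r (0, dl p)) = _
    have : rho K r (0, dl p) = dl p - dl (mA (-1) (mB 1 p)) := by
      have e : (tA 1 (0 : ZMod (2 ^ r) → ZMod (2 ^ r) → K)) = 0 := rfl
      change (tA 1 (0 : ZMod (2 ^ r) → ZMod (2 ^ r) → K) - (0 : ZMod (2 ^ r) → ZMod (2 ^ r) → K)) -
        (tA 1 (tB (-1) (dl p)) - dl p) = _
      rw [e, tB_dl, tA_dl, sub_zero, zero_sub, neg_sub]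
    rw [this, map_sub]

/-- Counting: the sets `x_b + s t`, `t ≤ M`, are disjoint subsets of `X0`. -/
private theorem card_of_sets {r M : ℕ} (S : Finset ℕ) (f : ℕ → ℕ → ZMod (2 ^ r))
    (X0 : Finset (ZMod (2 ^ r))) (hf : ∀ b ∈ S, ∀ t ≤ M, f b t ∈ X0)
    (hinj : ∀ b ∈ S, ∀ b' ∈ S, ∀ t ≤ M, ∀ t' ≤ M, f b t = f b' t' → b = b' ∧ t = t') :
    S.card * (M + 1) ≤ X0.card := by
  classical
  have h1 : ((S ×ˢ Finset.range (M + 1)).image fun z : ℕ × ℕ => f z.1 z.2) ⊆ X0 := by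
    intro z hz
    obtain ⟨⟨b, t⟩, ht, rfl⟩ := Finset.mem_image.mp hz
    rw [Finset.mem_product, Finset.mem_range] at ht
    exact hf b ht.1 t (Nat.lt_succ_iff.mp ht.2)
  have h2 := Finset.card_le_card h1
  rw [Finset.card_image_of_injOn, Finset.card_product, Finset.card_range] at h2
  · exact h2
  · rintro ⟨b, t⟩ ht ⟨b', t'⟩ ht' he
    have ht1 := Finset.mem_coe.mp ht
    have ht2 := Finset.mem_coe.mp ht'
    rw [Finset.mem_product, Finset.mem_range] at ht1 ht2
    obtain ⟨e1, e2⟩ := hinj b ht1.1 b' ht2.1 t (Nat.lt_succ_iff.mp ht1.2) t'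
      (Nat.lt_succ_iff.mp ht2.2) he
    rw [e1, e2]

theorem hNvb2 : StNvb2 := by
  intro hgrid hnva hex K _ D r c hD hDr hcb
  by_contra hcontra
  push Not at hcontra
  have hG : ∀ G : ℤ → ℤ → K, Sym (r + 1) (r + 1) G →
      ∑ b ∈ (Finset.range D).filter (fun b => Nat.Coprime b D),
        c b * (G (2 ^ (r + 1) * b) D - G 1 0) = 0 := hcontra
  clear hcontra
  classical
  set L : ℕ := Nat.log 2 D with hL
  set M : ℕ := 4 * L + 6 with hMdef
  set N : ℕ := D.totient * (2 * L + 3) with hNdef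
  have hD0 : 1 ≤ D := hD.pos
  have hphi0 : 0 < D.totient := Nat.totient_pos.mpr hD.pos
  have hphiD : D.totient ≤ D := Nat.totient_le D
  have hDM : D * (M + 1) < 2 ^ r := hDr
  have hNr : N < 2 ^ r := by
    have h1 : N ≤ D * (4 * L + 7) := Nat.mul_le_mul hphiD (by omega)
    exact lt_of_le_of_lt h1 hDr
  obtain ⟨Psi, E1, E3, xb, hE1, hE3, hP1, hP3, hPG, hPc, hinj⟩ := hnva K _ D r M c hD hDM
  rw [← hL] at hE1 hE3
  -- the functional vanishes on solutions of the relation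
  have hrel : ∀ F1 F3 : ZMod (2 ^ r) → ZMod (2 ^ r) → K, Rel F1 F3 → Psi (F1, F3) = 0 := by
    intro F1 F3 hR
    obtain ⟨G, hS, e1, e3⟩ := hex K _ r r F1 F3 hR
    have h1 := hPG G hS
    rw [hG G hS] at h1
    have h2 : (fun x y => edgeF 1 1 0 0 1 G x y) = F1 := by funext x y; exact e1 x y
    have h3 : (fun x y => edgeF 1 1 1 0 1 G x y) = F3 := by funext x y; exact e3 x y
    rw [h2, h3] at h1
    exact h1.symm
  obtain ⟨lam, hl1, hl3⟩ := exists_lam Psi hrel
  -- the invariances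
  have hA : ∀ p : ZMod (2 ^ r) × ZMod (2 ^ r), p ∉ E1 →
      lam (mA (-1) p).1 (mA (-1) p).2 = lam p.1 p.2 := by
    intro p hp
    have h1 := hP1 p hp
    change Psi (dl p, 0) = 0 at h1
    rw [hl1 p] at h1
    exact sub_eq_zero.mp h1
  have hC : ∀ p : ZMod (2 ^ r) × ZMod (2 ^ r), p ∉ E3 →
      lam p.1 p.2 = lam (mA (-1) (mB 1 p)).1 (mA (-1) (mB 1 p)).2 := by
    intro p hp
    have h1 := hP3 p hp
    change Psi (0, dl p) = 0 at h1
    rw [hl3 p] at h1
    exact sub_eq_zero.mp h1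
  set E2 : Finset (ZMod (2 ^ r) × ZMod (2 ^ r)) := E3 ∪ E1.image (mB (-1)) with hE2def
  have hsplit : D.totient * (L + 2) + D.totient * (L + 1) = N := by rw [hNdef]; ring
  have hE2 : E2.card ≤ N := by
    have h1 := Finset.card_union_le E3 (E1.image (mB (-1)))
    have h2 : (E1.image (mB (-1))).card ≤ E1.card := Finset.card_image_le
    rw [hE2def]
    omega
  have hB : ∀ p : ZMod (2 ^ r) × ZMod (2 ^ r), p ∉ E2 →
      lam (mB 1 p).1 (mB 1 p).2 = lam p.1 p.2 := by
    intro p hp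
    rw [hE2def, Finset.mem_union, not_or] at hp
    have hp1 : mB 1 p ∉ E1 := by
      intro h
      apply hp.2
      rw [Finset.mem_image]
      exact ⟨mB 1 p, h, mB_inv 1 p⟩
    rw [hC p hp.1, hA _ hp1]
  have hE1N : E1.card ≤ N := by omega
  obtain ⟨v, X0, Y0, hX0, -, hXY⟩ := hgrid K r N N lam E1 E2 hE1N hE2 hNr hNr
    (fun x y hxy => hA (x, y) hxy) (fun x y hxy => hB (x, y) hxy)
  -- the line `y = 0`
  have hline : ∀ x : ZMod (2 ^ r), lam x 0 ≠ v → x ∈ X0 := by
    intro x hx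
    have h1 := (hXY x 0 hx).1
    have h2 : x * (1 - 4 * x * 0)⁻¹ = x := by
      have : (1 - 4 * x * 0 : ZMod (2 ^ r)) = 1 := by ring
      rw [this, inv_uniq isUnit_one (one_mul 1), mul_one]
    rwa [h2] at h1
  have hstep : ∀ x : ZMod (2 ^ r), Psi (Function.curry (Pi.single (x, 0) 1), 0) =
      lam (x - 1) 0 - lam x 0 := by
    intro x
    have h1 := hl1 (x, 0)
    have h2 : mA (-1) ((x, 0) : ZMod (2 ^ r) × ZMod (2 ^ r)) = (x - 1, 0) := by
      unfold mA
      ext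
      · simp [sub_eq_add_neg]
      · simp
    rw [h2] at h1
    exact h1
  have hdiff : ∀ b < D, Nat.Coprime b D → lam (xb b - 1) 0 ≠ lam (xb b) 0 := by
    intro b hb hbc h
    have hc1 := (hPc b hb hbc).1
    rw [hstep, h, sub_self] at hc1
    exact hcb b hb hbc (neg_eq_zero.mp hc1.symm)
  have hup : ∀ b < D, Nat.Coprime b D → ∀ t : ℕ, t ≤ M →
      lam (xb b + ((t : ℤ) : ZMod (2 ^ r))) 0 = lam (xb b) 0 := by
    intro b hb hbc t
    have hc2 := (hPc b hb hbc).2
    induction t with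
    | zero => intro _; simp
    | succ t ih =>
      intro ht
      have h1 := hc2 ((t : ℤ) + 1) (by omega) (by rw [abs_le]; constructor <;> omega)
      rw [hstep] at h1
      have h2 := ih (by omega)
      have h3 : xb b + (((t : ℤ) + 1 : ℤ) : ZMod (2 ^ r)) - 1 =
          xb b + ((t : ℤ) : ZMod (2 ^ r)) := by push_cast; ring
      have h4 : xb b + (((t : ℤ) + 1 : ℤ) : ZMod (2 ^ r)) =
          xb b + (((t + 1 : ℕ) : ℤ) : ZMod (2 ^ r)) := by push_cast; ring
      rw [h3, h4, h2] at h1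
      exact (sub_eq_zero.mp h1).symm
  have hdown : ∀ b < D, Nat.Coprime b D → ∀ t : ℕ, t ≤ M →
      lam (xb b - 1 - ((t : ℤ) : ZMod (2 ^ r))) 0 = lam (xb b - 1) 0 := by
    intro b hb hbc t
    have hc2 := (hPc b hb hbc).2
    induction t with
    | zero => intro _; simp
    | succ t ih =>
      intro ht
      have h1 := hc2 (-((t : ℤ) + 1)) (by omega) (by rw [abs_le]; constructor <;> omega)
      rw [hstep] at h1
      have h2 := ih (by omega)
      have h3 : xb b + ((-((t : ℤ) + 1) : ℤ) : ZMod (2 ^ r)) - 1 =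
          xb b - 1 - (((t + 1 : ℕ) : ℤ) : ZMod (2 ^ r)) := by push_cast; ring
      have h4 : xb b + ((-((t : ℤ) + 1) : ℤ) : ZMod (2 ^ r)) =
          xb b - 1 - ((t : ℤ) : ZMod (2 ^ r)) := by push_cast; ring
      rw [h3, h4, h2] at h1
      exact sub_eq_zero.mp h1
  -- counting
  set S : Finset ℕ := (Finset.range D).filter (fun b => Nat.Coprime b D) with hSdef
  have hScard : S.card = D.totient := by
    rw [hSdef, Nat.totient]
    congr 1
    ext b
    simp only [Finset.mem_filter]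
    rw [Nat.coprime_comm]
  have hS : ∀ b ∈ S, b < D ∧ Nat.Coprime b D := by
    intro b hb
    rw [hSdef, Finset.mem_filter, Finset.mem_range] at hb
    exact hb
  set S1 : Finset ℕ := S.filter (fun b => lam (xb b) 0 ≠ v) with hS1
  set S2 : Finset ℕ := S.filter (fun b => lam (xb b - 1) 0 ≠ v) with hS2
  have hunion : S ⊆ S1 ∪ S2 := by
    intro b hb
    obtain ⟨hb1, hb2⟩ := hS b hb
    by_cases h : lam (xb b) 0 = v
    · exact Finset.mem_union_right _
        (Finset.mem_filter.mpr ⟨hb, fun h2 => hdiff b hb1 hb2 (by rw [h2, h])⟩)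
    · exact Finset.mem_union_left _ (Finset.mem_filter.mpr ⟨hb, h⟩)
  have hcardS : D.totient ≤ S1.card + S2.card := by
    rw [← hScard]
    exact (Finset.card_le_card hunion).trans (Finset.card_union_le _ _)
  have hc1 : S1.card * (M + 1) ≤ X0.card := by
    refine card_of_sets S1 (fun b t => xb b + ((t : ℤ) : ZMod (2 ^ r))) X0 ?_ ?_
    · intro b hb t ht
      rw [hS1, Finset.mem_filter] at hb
      obtain ⟨hb1, hb2⟩ := hS b hb.1
      refine hline _ ?_
      rw [hup b hb1 hb2 t ht]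
      exact hb.2
    · intro b hb b' hb' t ht t' ht' he
      rw [hS1, Finset.mem_filter] at hb hb'
      obtain ⟨hb1, hb2⟩ := hS b hb.1
      obtain ⟨hb1', hb2'⟩ := hS b' hb'.1
      obtain ⟨e1, e2⟩ := hinj b hb1 hb2 b' hb1' hb2' ((t : ℤ) - t')
        (by rw [abs_le]; constructor <;> omega) (by
          have he' : xb b + ((t : ℤ) : ZMod (2 ^ r)) = xb b' + ((t' : ℤ) : ZMod (2 ^ r)) := he
          push_cast at he' ⊢
          linear_combination he')
      exact ⟨e1, by omega⟩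
  have hc2 : S2.card * (M + 1) ≤ X0.card := by
    refine card_of_sets S2 (fun b t => xb b - 1 - ((t : ℤ) : ZMod (2 ^ r))) X0 ?_ ?_
    · intro b hb t ht
      rw [hS2, Finset.mem_filter] at hb
      obtain ⟨hb1, hb2⟩ := hS b hb.1
      refine hline _ ?_
      rw [hdown b hb1 hb2 t ht]
      exact hb.2
    · intro b hb b' hb' t ht t' ht' he
      rw [hS2, Finset.mem_filter] at hb hb'
      obtain ⟨hb1, hb2⟩ := hS b hb.1
      obtain ⟨hb1', hb2'⟩ := hS b' hb'.1
      obtain ⟨e1, e2⟩ := hinj b hb1 hb2 b' hb1' hb2' ((t' : ℤ) - t)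
        (by rw [abs_le]; constructor <;> omega) (by
          have he' : xb b - 1 - ((t : ℤ) : ZMod (2 ^ r)) = xb b' - 1 - ((t' : ℤ) : ZMod (2 ^ r)) := he
          push_cast at he' ⊢
          linear_combination he')
      exact ⟨e1, by omega⟩
  have h1 : D.totient * (M + 1) ≤ (S1.card + S2.card) * (M + 1) := Nat.mul_le_mul_right _ hcardS
  have h2 : (S1.card + S2.card) * (M + 1) ≤ 2 * N := by
    rw [add_mul]
    omega
  have h3 : D.totient * (M + 1) = 2 * N + D.totient := by rw [hNdef, hMdef]; ring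
  omega

end Pool.Agent.Helper6.TX
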